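import Pool.Agent.WeakTransport.Assembly

/-!
# The weak transport inequality `T⁻` implies the full weak transport inequality `T`

For the quadratic cost, in every dimension `n`, and with a constant `a'` depending only on `n`
and `a`.

Outline of the proof (all of it is carried out in `Pool/Agent/WeakTransport/`).
`T⁻` gives, for a convex `G` with measurable subgradient `s`, the bound
`∫ G dν - ∫ G dμ ≤ (∫ |s|² dν)^{1/2} H(ν|μ)^{1/2} / a`, hence a sub-Gaussian Laplace transform,
square-exponential integrability and a Poincaré inequality for convex functions. From these, for a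
convex `g` with `1/C`-semiconcave part and subgradient `s`, and `C` large, one gets the key bound
`∫ exp(-(g - ∫ g dμ) - C |s|² / 8) dμ ≤ 1`. A finite minimax argument then gives `T⁺`.
-/

open MeasureTheory ProbabilityTheory InformationTheory
open scoped ENNReal

namespace Pool.Agent.Results.MP_200d02_pr.MinusImpliesFull

/-- Let `a > 0`. There is `a' > 0`, depending only on `n` and `a`, such that every probability
measure `μ` on `ℝⁿ` with finite first moment which satisfies `T⁻` for the cost `a² t²` satisfies
`T` (both `T⁻` and `T⁺`) for the cost `a'² t²`. -/
theorem result (n : ℕ) (a : ℝ) (ha : 0 < a) :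
    ∃ a' : ℝ, 0 < a' ∧ ∀ μ : Measure (WT.E n), IsProbabilityMeasure μ →
      Integrable (fun x => x) μ → WT.TMinus (WT.quad a) μ → WT.TBoth (WT.quad a') μ :=
  WT.main n ha

end Pool.Agent.Results.MP_200d02_pr.MinusImpliesFull
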